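import Pool.Agent.N783.CF.WR

/-!
# WR/FF: roots of an irreducible polynomial over a finite field
-/

set_option autoImplicit false

namespace Pool.Agent.N441.WR

open Polynomial IntermediateField Pool.Agent.N783.CF

theorem t_FF : S_FF := by
  intro κ k _ _ _ _ p z hp hz
  have : Fintype κ := Fintype.ofFinite κ
  have hp0 : p ≠ 0 := hp.ne_zero
  have hzi : IsIntegral κ z := IsAlgebraic.isIntegral ⟨p, hp0, hz⟩
  have hass : Associated (minpoly κ z) p :=
    (minpoly.irreducible hzi).associated_of_dvd hp (minpoly.dvd κ z hz)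
  have hdeg : (minpoly κ z).natDegree = p.natDegree :=
    Polynomial.natDegree_eq_natDegree (Polynomial.degree_eq_degree_of_associated hass)
  have : FiniteDimensional κ κ⟮z⟯ := IntermediateField.adjoin.finiteDimensional hzi
  have : Finite κ⟮z⟯ := Module.finite_of_finite κ
  have : Fintype κ⟮z⟯ := Fintype.ofFinite _
  have hfr : Module.finrank κ κ⟮z⟯ = p.natDegree := by
    rw [IntermediateField.adjoin.finrank hzi, hdeg]
  have hcard : Fintype.card κ⟮z⟯ = Nat.card κ ^ p.natDegree := by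
    rw [Module.card_eq_pow_finrank (K := κ), hfr, Nat.card_eq_fintype_card]
  have hg : ((AdjoinSimple.gen κ z : κ⟮z⟯) : k) = z := AdjoinSimple.coe_gen κ z
  refine ⟨?_, fun y hy => ?_⟩
  · have h1 := FiniteField.pow_card (AdjoinSimple.gen κ z)
    rw [hcard] at h1
    have h2 := congrArg (fun t : κ⟮z⟯ => (t : k)) h1
    simp only [IntermediateField.coe_pow, hg] at h2
    exact h2
  · have hy' : aeval y (minpoly κ z) = 0 := by
      obtain ⟨c, hc⟩ := hass.symm.dvd
      rw [hc, map_mul, hy, zero_mul]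
    let pb := IntermediateField.adjoin.powerBasis hzi
    have hgen : pb.gen = AdjoinSimple.gen κ z := IntermediateField.adjoin.powerBasis_gen hzi
    have hmin : minpoly κ pb.gen = minpoly κ z := by
      rw [hgen, IntermediateField.minpoly_gen]
    let σ : κ⟮z⟯ →ₐ[κ] k := pb.lift y (by rw [hmin]; exact hy')
    have hσ : σ (AdjoinSimple.gen κ z) = y := by
      rw [← hgen]
      exact pb.lift_gen y _
    obtain ⟨i, hi⟩ := (FiniteField.bijective_frobeniusAlgHom_pow κ κ⟮z⟯).2 (σ.restrictNormal κ⟮z⟯)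
    refine ⟨i, ?_⟩
    have h1 := AlgHom.restrictNormal_commutes σ κ⟮z⟯ (AdjoinSimple.gen κ z)
    have h2 : algebraMap κ⟮z⟯ κ⟮z⟯ (AdjoinSimple.gen κ z) = AdjoinSimple.gen κ z := rfl
    rw [h2, hσ, ← hi] at h1
    rw [← h1]
    have h3 : ((FiniteField.frobeniusAlgHom κ κ⟮z⟯) ^ (i : ℕ)) (AdjoinSimple.gen κ z) =
        (AdjoinSimple.gen κ z) ^ (Fintype.card κ ^ (i : ℕ)) := by
      rw [AlgHom.coe_pow, FiniteField.coe_frobeniusAlgHom, pow_iterate]
    change algebraMap κ⟮z⟯ k (((FiniteField.frobeniusAlgHom κ κ⟮z⟯) ^ (i : ℕ))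
      (AdjoinSimple.gen κ z)) = _
    rw [h3, map_pow, Nat.card_eq_fintype_card]
    rfl

end Pool.Agent.N441.WR
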